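import Mathlib

/-!
The integer 33 is not a sum of four positive integers whose product is p^3 - p with p prime.
-/

namespace Pool.Agent.Results.MP_ae8880_nt.Counterexample

lemma key : ∀ p ∈ [2, 3, 5, 7, 11, 13, 17, 19, 23, 29], ∀ a ∈ List.range 31, ∀ b ∈ List.range 31,
    ∀ c ∈ List.range 31, a * b * c * (33 - a - b - c) + p ≠ p ^ 3 := by
  decide +kernel

lemma not33 (a b c d p : ℕ) (ha : 0 < a) (hb : 0 < b) (hc : 0 < c) (hd : 0 < d) (hp : p.Prime)
    (hs : a + b + c + d = 33) (hprod : a * b * c * d + p = p ^ 3) : False := by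
  have hdiv : p ∣ a * b * c * d := by
    have h1 : p ∣ a * b * c * d + p := by
      rw [hprod]; exact dvd_pow_self p (by norm_num)
    exact (Nat.dvd_add_left (dvd_refl p)).1 h1
  have hle : p ≤ 30 := by
    rcases (Nat.Prime.dvd_mul hp).1 hdiv with h | h
    · rcases (Nat.Prime.dvd_mul hp).1 h with h | h
      · rcases (Nat.Prime.dvd_mul hp).1 h with h | h
        · have := Nat.le_of_dvd ha h; omega
        · have := Nat.le_of_dvd hb h; omega
      · have := Nat.le_of_dvd hc h; omega
    · have := Nat.le_of_dvd hd h; omega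
  have hmem : p ∈ [2, 3, 5, 7, 11, 13, 17, 19, 23, 29] := by
    have : ∀ q ∈ List.range 31, q.Prime → q ∈ [2, 3, 5, 7, 11, 13, 17, 19, 23, 29] := by
      decide +kernel
    exact this p (List.mem_range.2 (by omega)) hp
  have hd' : d = 33 - a - b - c := by omega
  exact key p hmem a (List.mem_range.2 (by omega)) b (List.mem_range.2 (by omega)) c
    (List.mem_range.2 (by omega)) (hd' ▸ hprod)

theorem result : ∃ n : ℤ, 8 < n ∧ ∀ p : ℕ, p.Prime →
    ¬ ∃ a b c d : ℤ, 0 < a ∧ 0 < b ∧ 0 < c ∧ 0 < d ∧ a + b + c + d = n ∧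
      a * b * c * d = (p : ℤ) ^ 3 - p := by
  refine ⟨33, by norm_num, ?_⟩
  rintro p hp ⟨a, b, c, d, ha, hb, hc, hd, hs, hprod⟩
  lift a to ℕ using ha.le
  lift b to ℕ using hb.le
  lift c to ℕ using hc.le
  lift d to ℕ using hd.le
  refine not33 a b c d p (by exact_mod_cast ha) (by exact_mod_cast hb) (by exact_mod_cast hc)
    (by exact_mod_cast hd) hp (by exact_mod_cast hs) ?_
  have : (a : ℤ) * b * c * d + p = (p : ℤ) ^ 3 := by linarith
  exact_mod_cast this

end Pool.Agent.Results.MP_ae8880_nt.Counterexample
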